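import Pool.Agent.Mg.Fee574f.G399175

set_option autoImplicit false

namespace Pool.Agent.Results.MP_ee574f_co.LogDegree

open Pool.Agent.MP_ee574f_co

/-- In a 2-connected graph whose minimum degree is at least `8180 (⌊log₂ Δ⌋ + 1)`, `Δ` an upper
bound for the degrees, every longest cycle has a chord. -/
theorem result :
    ∀ (V : Type) [Fintype V] (G : SimpleGraph V) (Δ : ℕ),
      3 ≤ Fintype.card V →
      (∀ S : Finset V, S.card ≤ 1 → (G.induce ((↑S : Set V)ᶜ)).Connected) →
      (∀ v : V, (G.neighborSet v).ncard ≤ Δ) →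
      (∀ v : V, 8180 * (Nat.log 2 Δ + 1) ≤ (G.neighborSet v).ncard) →
      ∀ (u : V) (c : G.Walk u u), c.IsCycle →
        (∀ (v : V) (d : G.Walk v v), d.IsCycle → d.length ≤ c.length) →
        ∃ x y : V, x ∈ c.support ∧ y ∈ c.support ∧ G.Adj x y ∧ s(x, y) ∉ c.edges := by
  classical
  intro V _ G Δ _ hconn hΔ hδ u c hc hmax
  by_contra hno
  have hL := long_of_walk c hc hmax hno
  have := hL.neZero
  have hdeg : ∀ v, (G.neighborSet v).ncard = G.degree v := fun v => by
    rw [← SimpleGraph.card_neighborFinset_eq_degree, ← Set.ncard_coe_finset,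
      SimpleGraph.coe_neighborFinset]
  have h1 : 8180 ≤ Δ := by have := hδ u; have := hΔ u; omega
  have h2 : 8 ≤ Nat.log 2 Δ := (Nat.le_log_iff_pow_le (by norm_num) (by omega)).2 (by omega)
  refine two_conn hL Δ (Nat.log 2 Δ + 1) (by omega) (Nat.lt_pow_succ_log_self (by norm_num) Δ).le
    (fun v => ?_) (fun v => ?_) (fun s => ?_)
  · have := hΔ v; rw [hdeg] at this; convert this
  · have := hδ v; rw [hdeg] at this
    refine le_trans (by omega) (le_of_le_of_eq this ?_)
    congr
  · have := hconn {s} (by simp)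
    rwa [Finset.coe_singleton] at this

end Pool.Agent.Results.MP_ee574f_co.LogDegree
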